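import Pool.Statements.S19353
import Pool.Agent.Helper764.KacFin

set_option autoImplicit false
open MeasureTheory Filter Topology
open Pool Pool.MP_5fc11c_pr

namespace Pool.Agent.H97.KacBridge

/-- number of distinct real roots of a polynomial, in the form of `Kac764.nz` -/
theorem card_roots_eq (p : Polynomial ℝ) : p.roots.toFinset.card = Kac764.nz p Set.univ := by
  unfold Kac764.nz
  rw [← Set.ncard_coe_finset]
  congr 1
  ext x
  simp [Polynomial.mem_roots']

/-- the map taking a sequence to its first `n + 1` entries -/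
def cut (n : ℕ) (ω : ℕ → ℝ) : Fin (n + 1) → ℝ := fun k => ω (k : ℕ)

theorem measurable_cut (n : ℕ) : Measurable (cut n) :=
  measurable_pi_iff.2 fun k => measurable_pi_apply (k : ℕ)

/-- a sequence starting with the given entries -/
def ext0 (n : ℕ) (c : Fin (n + 1) → ℝ) : ℕ → ℝ := fun j => if h : j < n + 1 then c ⟨j, h⟩ else 0

theorem measurable_ext0 (n : ℕ) : Measurable (ext0 n) := by
  refine measurable_pi_iff.2 fun j => ?_
  unfold ext0
  by_cases h : j < n + 1
  · simpa [h] using measurable_pi_apply (⟨j, h⟩ : Fin (n + 1))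
  · simp [h]

theorem kac_ext0 (n : ℕ) (c : Fin (n + 1) → ℝ) :
    Kac764.kac n (ext0 n c) = ∑ k : Fin (n + 1), Polynomial.C (c k) * Polynomial.X ^ (k : ℕ) := by
  unfold Kac764.kac
  rw [Finset.sum_range]
  refine Finset.sum_congr rfl fun k _ => ?_
  have : ext0 n c (k : ℕ) = c k := by
    unfold ext0
    rw [dif_pos k.2]
  rw [this]

theorem kac_cut (n : ℕ) (ω : ℕ → ℝ) :
    (∑ k : Fin (n + 1), Polynomial.C (cut n ω k) * Polynomial.X ^ (k : ℕ)) = Kac764.kac n ω := by
  unfold Kac764.kac
  rw [Finset.sum_range]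
  rfl

theorem map_cut (n : ℕ) (μ : Measure ℝ) [IsProbabilityMeasure μ] :
    (Measure.infinitePi fun _ : ℕ => μ).map (cut n) = Measure.pi fun _ : Fin (n + 1) => μ := by
  refine (Measure.pi_eq fun s hs => ?_).symm
  rw [Measure.map_apply (measurable_cut n) (MeasurableSet.univ_pi hs)]
  have h : cut n ⁻¹' (Set.univ.pi s) =
      Set.pi (Finset.range (n + 1) : Finset ℕ)
        (fun j : ℕ => if h : j < n + 1 then s ⟨j, h⟩ else Set.univ) := by
    ext ω
    simp only [cut, Set.mem_preimage, Set.mem_pi, Set.mem_univ, forall_true_left,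
      Finset.coe_range, Set.mem_Iio]
    constructor
    · intro H j hj
      rw [dif_pos hj]
      exact H ⟨j, hj⟩
    · intro H k
      have := H (k : ℕ) k.2
      rwa [dif_pos k.2] at this
  rw [h, Measure.infinitePi_pi]
  · rw [Finset.prod_range]
    refine Finset.prod_congr rfl fun k _ => ?_
    rw [dif_pos k.2]
  · intro j hj
    split_ifs with h
    · exact hs _
    · exact MeasurableSet.univ

/-- For every real law with mean 0 and variance 1, the expected number of distinct real roots of the degree-n polynomial with i.i.d. coefficients of that law, minus (2/π) log n, converges to a finite real limit. -/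
theorem result :
    ∀ (μ : Measure ℝ) [IsProbabilityMeasure μ],
      Integrable (fun x : ℝ => x ^ 2) μ →
      ∫ x, x ∂μ = 0 →
      ∫ x, x ^ 2 ∂μ = 1 →
      ∃ C : ℝ, Tendsto
        (fun n : ℕ =>
          (∫⁻ c : Fin (n + 1) → ℝ,
              (((∑ k : Fin (n + 1), Polynomial.C (c k) * Polynomial.X ^ (k : ℕ)).roots.toFinset.card : ℕ) : ENNReal)
              ∂(Measure.pi fun _ : Fin (n + 1) => μ)).toReal
            - 2 / Real.pi * Real.log (n : ℝ))
        atTop (𝓝 C) := by
  intro μ _ hint hmean hvar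
  have hμ : Kac764.Std μ := ⟨inferInstance, hint, hmean, hvar⟩
  obtain ⟨L, _, h2⟩ := Kac764.Fin.main μ hμ
  refine ⟨_, h2.congr fun n => ?_⟩
  congr 1
  have hm : Measurable (fun ω : ℕ → ℝ => Kac764.nz (Kac764.kac n ω) Set.univ) :=
    Kac764.H4.measurable_nz_set n Set.univ (Or.inl rfl)
  have hm' : Measurable (fun ω : ℕ → ℝ => (Kac764.nz (Kac764.kac n ω) Set.univ : ℝ)) :=
    measurable_from_top.comp hm
  have hmE : Measurable (fun c : Fin (n + 1) → ℝ =>
      (((∑ k : Fin (n + 1), Polynomial.C (c k) * Polynomial.X ^ (k : ℕ)).roots.toFinset.card : ℕ) :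
        ENNReal)) := by
    have h3 : Measurable (fun c : Fin (n + 1) → ℝ =>
        Kac764.nz (Kac764.kac n (ext0 n c)) Set.univ) := hm.comp (measurable_ext0 n)
    have h4 : Measurable (fun c : Fin (n + 1) → ℝ =>
        ((Kac764.nz (Kac764.kac n (ext0 n c)) Set.univ : ℕ) : ENNReal)) :=
      measurable_from_top.comp h3
    have h5 : (fun c : Fin (n + 1) → ℝ =>
      (((∑ k : Fin (n + 1), Polynomial.C (c k) * Polynomial.X ^ (k : ℕ)).roots.toFinset.card : ℕ) :
        ENNReal)) = (fun c : Fin (n + 1) → ℝ =>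
        ((Kac764.nz (Kac764.kac n (ext0 n c)) Set.univ : ℕ) : ENNReal)) := by
      funext c
      rw [kac_ext0, card_roots_eq]
    rw [h5]
    exact h4
  rw [integral_eq_lintegral_of_nonneg_ae (Filter.Eventually.of_forall fun ω => by positivity)
    hm'.aestronglyMeasurable]
  congr 1
  rw [← map_cut n μ, lintegral_map hmE (measurable_cut n)]
  refine lintegral_congr fun ω => ?_
  rw [kac_cut, card_roots_eq]
  simp

end Pool.Agent.H97.KacBridge
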